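import Mathlib
import Pool.Agent.Helper272.Ell.J3727

/-!
# Bodies with `C²` boundary: local structure and affine images

The proofs are those of `Helper272.Ell.J3727` and `Helper272.Ell.J4207`, where the boundary is `C^∞`.
-/

set_option autoImplicit false
open Set Metric MeasureTheory Polynomial
open scoped ContDiff RealInnerProductSpace ENNReal

namespace Pool.Agent.Y106.C2

open AS.J3727 (ell_grad_aux ell_side_aux)

/-- local structure of a body with `C²` boundary -/
theorem local_structure2 {n : ℕ} (K : Set (EuclideanSpace ℝ (Fin n))) (hK : IsClosed K)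
    (hreg : closure (interior K) = K) (x : EuclideanSpace ℝ (Fin n)) (hx : x ∈ frontier K)
    (U : Set (EuclideanSpace ℝ (Fin n))) (hU : IsOpen U) (hxU : x ∈ U)
    (f : EuclideanSpace ℝ (Fin n) → ℝ) (hf : ContDiffOn ℝ 2 f U) (hdf : fderiv ℝ f x ≠ 0)
    (hfr : frontier K ∩ U = {y ∈ U | f y = 0}) :
    ∃ g : EuclideanSpace ℝ (Fin n) → ℝ, ∃ δ > 0, ContDiffOn ℝ 2 g (ball x δ) ∧
      fderiv ℝ g x ≠ 0 ∧ g x = 0 ∧ ∀ y ∈ ball x δ,
        (y ∈ K ↔ g y ≤ 0) ∧ (y ∈ interior K ↔ g y < 0) ∧ (y ∈ frontier K ↔ g y = 0) := by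
  obtain ⟨ν, hν, ha, hφ⟩ := ell_grad_aux (fderiv ℝ f x) hdf
  set a : ℝ := ‖fderiv ℝ f x‖ with hadef
  have hfrU : ∀ y ∈ U, (y ∈ frontier K ↔ f y = 0) := by
    intro y hy
    have h1 : y ∈ frontier K ∩ U ↔ y ∈ {y ∈ U | f y = 0} := by rw [hfr]
    constructor
    · intro h
      exact (h1.1 ⟨h, hy⟩).2
    · intro h
      exact (h1.2 ⟨hy, h⟩).1
  have hfx : f x = 0 := (hfrU x hxU).1 hx
  have hat : ContDiffAt ℝ 2 f x := hf.contDiffAt (hU.mem_nhds hxU)
  have hstrict : HasStrictFDerivAt f (fderiv ℝ f x) x := hat.hasStrictFDerivAt (by norm_num)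
  have hev : ∀ᶠ p : EuclideanSpace ℝ (Fin n) × EuclideanSpace ℝ (Fin n) in nhds (x, x),
      ‖f p.1 - f p.2 - (fderiv ℝ f x) (p.1 - p.2)‖ ≤ a / 2 * ‖p.1 - p.2‖ :=
    (hasStrictFDerivAt_iff_isLittleO.1 hstrict).bound (by positivity)
  obtain ⟨r₁, hr₁, hb₁⟩ := Metric.eventually_nhds_iff_ball.1 hev
  obtain ⟨r₂, hr₂, hb₂⟩ := Metric.isOpen_iff.1 hU x hxU
  set r : ℝ := min r₁ r₂ with hrdef
  have hr : 0 < r := lt_min hr₁ hr₂
  have hrU : ball x r ⊆ U := (ball_subset_ball (min_le_right _ _)).trans hb₂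
  have hb : ∀ y ∈ ball x r, ∀ z ∈ ball x r, |f y - f z - a * ⟪ν, y - z⟫| ≤ a / 2 * ‖y - z‖ := by
    intro y hy z hz
    have h1 : (y, z) ∈ ball (x, x) r₁ := by
      rw [← ball_prod_same]
      exact ⟨ball_subset_ball (min_le_left _ _) hy, ball_subset_ball (min_le_left _ _) hz⟩
    have := hb₁ (y, z) h1
    simp only [Real.norm_eq_abs] at this
    rw [hφ] at this
    exact this
  have hb' : ∀ y ∈ ball x r, ∀ z ∈ ball x r,
      |(-f y) - (-f z) - a * ⟪-ν, y - z⟫| ≤ a / 2 * ‖y - z‖ := by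
    intro y hy z hz
    have := hb y hy z hz
    rw [inner_neg_left]
    rw [show -f y - -f z - a * -⟪ν, y - z⟫ = -(f y - f z - a * ⟪ν, y - z⟫) by ring, abs_neg]
    exact this
  have hfr1 : ∀ y ∈ ball x r, (y ∈ frontier K → f y = 0) := fun y hy h => (hfrU y (hrU hy)).1 h
  have hfr2 : ∀ y ∈ ball x r, (y ∈ frontier K → -f y = 0) := fun y hy h => by
    rw [hfr1 y hy h, neg_zero]
  have hsub : ball x (r / 8) ⊆ ball x r := ball_subset_ball (by linarith)
  have hside1 := ell_side_aux K hK x ν hν a r ha hr f hfx hb hfr1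
  have hside2 := ell_side_aux K hK x (-ν) (by rw [norm_neg]; exact hν) a r ha hr (fun y => -f y)
    (by simp only [hfx, neg_zero]) hb' hfr2
  have hfK : ∀ y ∈ ball x (r / 8), f y = 0 → y ∈ K := by
    intro y hy h
    have := (hfrU y (hrU (hsub hy))).2 h
    exact hK.frontier_subset this
  have hint : ∀ y : EuclideanSpace ℝ (Fin n), y ∈ interior K ↔ (y ∈ K ∧ y ∉ frontier K) := by
    intro y
    rw [hK.frontier_eq]
    constructor
    · intro h
      exact ⟨interior_subset h, fun h2 => h2.2 h⟩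
    · rintro ⟨h1, h2⟩
      by_contra h3
      exact h2 ⟨h1, h3⟩
  have hdiff : ContDiffOn ℝ 2 f (ball x (r / 8)) := hf.mono (hsub.trans hrU)
  by_cases hp : x - (r / 2) • ν ∈ K
  · by_cases hq : x - (r / 2) • (-ν) ∈ K
    · -- both sides in K: x interior
      exfalso
      have : ball x (r / 8) ⊆ K := by
        intro y hy
        rcases lt_trichotomy (f y) 0 with h | h | h
        · exact (hside1 y hy h).2 hp
        · exact hfK y hy h
        · exact (hside2 y hy (by simpa using h)).2 hq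
      have h2 : x ∈ interior K := by
        rw [mem_interior]
        exact ⟨_, this, isOpen_ball, mem_ball_self (by positivity)⟩
      rw [hK.frontier_eq] at hx
      exact hx.2 h2
    · have hK1 : ∀ y ∈ ball x (r / 8), (y ∈ K ↔ f y ≤ 0) := by
        intro y hy
        rcases lt_trichotomy (f y) 0 with h | h | h
        · exact ⟨fun _ => h.le, fun _ => (hside1 y hy h).2 hp⟩
        · exact ⟨fun _ => h.le, fun _ => hfK y hy h⟩
        · constructor
          · intro hyK
            exact absurd ((hside2 y hy (by simpa using h)).1 hyK) hq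
          · intro h2
            linarith
      refine ⟨f, r / 8, by positivity, hdiff, hdf, hfx, fun y hy => ⟨hK1 y hy, ?_, ?_⟩⟩
      · rw [hint, hK1 y hy, hfrU y (hrU (hsub hy))]
        exact ⟨fun h => lt_of_le_of_ne h.1 h.2, fun h => ⟨h.le, h.ne⟩⟩
      · exact hfrU y (hrU (hsub hy))
  · by_cases hq : x - (r / 2) • (-ν) ∈ K
    · have hK1 : ∀ y ∈ ball x (r / 8), (y ∈ K ↔ -f y ≤ 0) := by
        intro y hy
        rcases lt_trichotomy (f y) 0 with h | h | h
        · constructor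
          · intro hyK
            exact absurd ((hside1 y hy h).1 hyK) hp
          · intro h2
            linarith
        · exact ⟨fun _ => by linarith, fun _ => hfK y hy h⟩
        · exact ⟨fun _ => by linarith, fun _ => (hside2 y hy (by simpa using h)).2 hq⟩
      refine ⟨fun y => -f y, r / 8, by positivity, hdiff.neg, ?_, by simp only [hfx, neg_zero],
        fun y hy => ⟨hK1 y hy, ?_, ?_⟩⟩
      · have : fderiv ℝ (fun y => -f y) x = -fderiv ℝ f x := by
          rw [fderiv_fun_neg]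
        rw [this]
        exact neg_ne_zero.2 hdf
      · rw [hint, hK1 y hy, hfrU y (hrU (hsub hy))]
        exact ⟨fun h => lt_of_le_of_ne h.1 (fun h2 => h.2 (by linarith)), fun h =>
          ⟨h.le, fun h2 => by simp [h2] at h⟩⟩
      · rw [hfrU y (hrU (hsub hy))]
        exact ⟨fun h => by simp [h], fun h => by simpa using h⟩
    · -- neither: interior is empty near x
      exfalso
      have hxK : x ∈ closure (interior K) := by
        rw [hreg]
        exact hK.frontier_subset hx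
      obtain ⟨y, hyint, hyb⟩ := Metric.mem_closure_iff.1 hxK (r / 8) (by positivity)
      have hy : y ∈ ball x (r / 8) := by
        rw [mem_ball, dist_comm]; exact hyb
      have hyK := interior_subset hyint
      rcases lt_trichotomy (f y) 0 with h | h | h
      · exact hp ((hside1 y hy h).1 hyK)
      · exact ((hint y).1 hyint).2 ((hfrU y (hrU (hsub hy))).2 h)
      · exact hq ((hside2 y hy (by simpa using h)).1 hyK)

/-- affine images of bodies with `C²` boundary -/
theorem smooth_image2 {n : ℕ} (K : Set (EuclideanSpace ℝ (Fin n))) (hK : IsCompact K)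
    (hreg : closure (interior K) = K)
    (hsm : ∀ x ∈ frontier K, ∃ U : Set (EuclideanSpace ℝ (Fin n)), IsOpen U ∧ x ∈ U ∧
      ∃ f : EuclideanSpace ℝ (Fin n) → ℝ, ContDiffOn ℝ 2 f U ∧ fderiv ℝ f x ≠ 0 ∧
        frontier K ∩ U = {y ∈ U | f y = 0})
    (T : EuclideanSpace ℝ (Fin n) ≃L[ℝ] EuclideanSpace ℝ (Fin n))
    (c : EuclideanSpace ℝ (Fin n)) (K' : Set (EuclideanSpace ℝ (Fin n)))
    (hK' : K' = (fun x => T (x - c)) '' K) :
    IsCompact K' ∧ closure (interior K') = K' ∧
      interior K' = (fun x => T (x - c)) '' interior K ∧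
    (∀ x ∈ frontier K', ∃ U : Set (EuclideanSpace ℝ (Fin n)), IsOpen U ∧ x ∈ U ∧
      ∃ f : EuclideanSpace ℝ (Fin n) → ℝ, ContDiffOn ℝ 2 f U ∧ fderiv ℝ f x ≠ 0 ∧
        frontier K' ∩ U = {y ∈ U | f y = 0}) := by
  let Φ : EuclideanSpace ℝ (Fin n) ≃ₜ EuclideanSpace ℝ (Fin n) :=
    (Homeomorph.subRight c).trans T.toHomeomorph
  have hΦ : (Φ : EuclideanSpace ℝ (Fin n) → EuclideanSpace ℝ (Fin n)) = fun x => T (x - c) := rfl
  have hΦs : ∀ y, Φ.symm y = T.symm y + c := fun y => by
    rw [Homeomorph.symm_apply_eq, hΦ]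
    simp
  rw [← hΦ] at hK' ⊢
  subst hK'
  refine ⟨hK.image Φ.continuous, ?_, (Φ.image_interior K).symm, ?_⟩
  · rw [← Φ.image_interior, ← Φ.image_closure, hreg]
  · intro x' hx'
    rw [← Φ.image_frontier] at hx' ⊢
    obtain ⟨x, hx, rfl⟩ := hx'
    obtain ⟨U, hU, hxU, f, hf, hf', hfr⟩ := hsm x hx
    have hinv : Φ.symm (Φ x) = x := Φ.symm_apply_apply x
    have hsmooth : ContDiff ℝ 2 (fun y => Φ.symm y) := by
      simp only [hΦs]
      exact T.symm.contDiff.add contDiff_const
    have hder : HasFDerivAt (fun y => Φ.symm y)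
        (T.symm : EuclideanSpace ℝ (Fin n) →L[ℝ] EuclideanSpace ℝ (Fin n)) (Φ x) := by
      simp only [hΦs]
      exact (T.symm.hasFDerivAt).add_const c
    refine ⟨Φ '' U, Φ.isOpenMap U hU, mem_image_of_mem _ hxU, fun y => f (Φ.symm y), ?_, ?_, ?_⟩
    · refine hf.comp hsmooth.contDiffOn ?_
      rintro _ ⟨u, hu, rfl⟩
      rwa [Φ.symm_apply_apply]
    · have hd : DifferentiableAt ℝ f x := by
        by_contra hnd
        exact hf' (fderiv_zero_of_not_differentiableAt hnd)
      have h1 : HasFDerivAt f (fderiv ℝ f x) (Φ.symm (Φ x)) := by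
        rw [hinv]; exact hd.hasFDerivAt
      have h2 := h1.comp (Φ x) hder
      have h3 : fderiv ℝ (fun y => f (Φ.symm y)) (Φ x) = (fderiv ℝ f x).comp
        (T.symm : EuclideanSpace ℝ (Fin n) →L[ℝ] EuclideanSpace ℝ (Fin n)) := h2.fderiv
      rw [h3]
      intro h0
      apply hf'
      ext v
      have h4 := DFunLike.congr_fun h0 (T v)
      simpa using h4
    · rw [← image_inter Φ.injective, hfr]
      ext y
      constructor
      · rintro ⟨z, ⟨hz1, hz2⟩, rfl⟩
        refine ⟨mem_image_of_mem _ hz1, ?_⟩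
        show f (Φ.symm (Φ z)) = 0
        rw [Φ.symm_apply_apply, hz2]
      · rintro ⟨⟨z, hz, rfl⟩, h⟩
        have h' : f (Φ.symm (Φ z)) = 0 := h
        rw [Φ.symm_apply_apply] at h'
        exact ⟨z, ⟨hz, h'⟩, rfl⟩

end Pool.Agent.Y106.C2
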