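import Mathlib
import Pool.Agent.Helper272.Ell.Core
import Pool.Agent.Helper272.Ell.J4610
import Pool.Agent.Helper272.Ell.J4612
import Pool.Agent.Helper272.Ell.J3727
import Pool.Agent.Helper272.Ell.J3728
import Pool.Agent.Helper272.Ell.J3729
import Pool.Agent.Helper272.Ell.J4139
import Pool.Agent.Helper272.Ell.J4140
import Pool.Agent.Helper272.Ell.J4203
import Pool.Agent.Helper272.Ell.J4207
import Pool.Agent.Helper272.Ell.J4228
import Pool.Agent.Y106.C2.Local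

set_option autoImplicit false
open Set Metric MeasureTheory Polynomial
open scoped ContDiff RealInnerProductSpace ENNReal

namespace Pool.Agent.Y106.C2

open AS.J4610 (support_basic near_direction farthest frontier_ellipsoid)
open AS.J4612 (ball_of_shell)
open AS.J3727 (interior_ball)
open AS.J3728 (strong_support)
open AS.J3729 (frontier_null)
open AS.J4139 (lin_quad)
open AS.J4140 (ball_position)
open AS.J4203 (shell)
open AS.J4228 (planar)

theorem main {n : ℕ} (hn : 2 ≤ n) (K : Set (EuclideanSpace ℝ (Fin n))) (hK : IsCompact K)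
    (hKne : K.Nonempty) (hreg : closure (interior K) = K)
    (hsm : ∀ x ∈ frontier K, ∃ U : Set (EuclideanSpace ℝ (Fin n)), IsOpen U ∧ x ∈ U ∧
      ∃ f : EuclideanSpace ℝ (Fin n) → ℝ, ContDiffOn ℝ 2 f U ∧ fderiv ℝ f x ≠ 0 ∧
        frontier K ∩ U = {y ∈ U | f y = 0})
    (m : ℕ) (hm : 0 < m)
    (hpoly : ∀ ξ : EuclideanSpace ℝ (Fin n), ‖ξ‖ = 1 → ∃ P : ℝ[X], ∀ t : ℝ,
      (∃ x ∈ interior K, ⟪x, ξ⟫ = t) →
      (volume {y : (ℝ ∙ ξ)ᗮ | t • ξ + (y : EuclideanSpace ℝ (Fin n)) ∈ K}).toReal ^ m = P.eval t) :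
    ∃ (c : EuclideanSpace ℝ (Fin n))
      (T : EuclideanSpace ℝ (Fin n) ≃L[ℝ] EuclideanSpace ℝ (Fin n)),
      K = {x | ‖T (x - c)‖ ≤ 1} ∧ frontier K = {x | ‖T (x - c)‖ = 1} := by
  have hKc : IsClosed K := hK.isClosed
  have hKi : (interior K).Nonempty := by
    rw [← closure_nonempty_iff, hreg]; exact hKne
  -- local structure and interior balls
  have hloc : ∀ K : Set (EuclideanSpace ℝ (Fin n)), IsCompact K → closure (interior K) = K →
      (∀ x ∈ frontier K, ∃ U : Set (EuclideanSpace ℝ (Fin n)), IsOpen U ∧ x ∈ U ∧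
      ∃ f : EuclideanSpace ℝ (Fin n) → ℝ, ContDiffOn ℝ 2 f U ∧ fderiv ℝ f x ≠ 0 ∧
        frontier K ∩ U = {y ∈ U | f y = 0}) →
      ∀ x ∈ frontier K, ∃ g : EuclideanSpace ℝ (Fin n) → ℝ, ∃ δ > 0,
      ContDiffOn ℝ 2 g (ball x δ) ∧ fderiv ℝ g x ≠ 0 ∧ g x = 0 ∧ ∀ y ∈ ball x δ,
        (y ∈ K ↔ g y ≤ 0) ∧ (y ∈ interior K ↔ g y < 0) ∧ (y ∈ frontier K ↔ g y = 0) := by
    intro K hK hreg hsm x hx
    obtain ⟨U, hU, hxU, f, hf, hdf, hfr⟩ := hsm x hx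
    exact local_structure2 K hK.isClosed hreg x hx U hU hxU f hf hdf hfr
  have hIB : ∀ x ∈ frontier K, ∃ c : EuclideanSpace ℝ (Fin n), ∃ ρ > 0,
      dist x c = ρ ∧ ball c ρ ⊆ interior K := by
    intro x hx
    obtain ⟨g, δ, hδ, hg, hdg, hgx, h⟩ := hloc K hK hreg hsm x hx
    exact interior_ball K x g δ hδ hg hdg hgx (fun y hy => (h y hy).2.1)
  have hfr0 := frontier_null K hIB
  -- strong support
  obtain ⟨x₀, hx₀, hx₀0, hfar⟩ := farthest hn K hK hKi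
  obtain ⟨g, δ, hδ, hg, hdg, hgx, hgl⟩ := hloc K hK hreg hsm x₀ hx₀
  obtain ⟨η, hη, κ, hκ, hsup⟩ := strong_support K hK x₀ (hKc.frontier_subset hx₀) hx₀0 hfar g δ hδ
    hg hdg hgx (fun y hy => (hgl y hy).1)
  obtain ⟨η', hη', hnear⟩ := near_direction K x₀ hx₀0 η κ hη hκ hsup
  -- support function
  obtain ⟨h, hh, hsSup, hsInf, hcont, hu, hv⟩ := support_basic K hK hreg hKi
  obtain ⟨⟨L, hL⟩, B, hBs, hB⟩ := lin_quad (fun ξ => h ξ - h (-ξ)) (fun ξ => h ξ * h (-ξ))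
    (hcont.sub (hcont.comp continuous_neg)) (hcont.mul (hcont.comp continuous_neg)) hu hv x₀ η' hη'
    (by
      intro ξ₀ hξ₀ ξ₁ hli
      obtain ⟨δ', hδ', hs⟩ := hnear ξ₀ hξ₀ ξ₁
      obtain ⟨hYo, hYne, hYb, himg, μ, hμf, hμ, P, Bad, hBad, hpos, hint, hfr, htop⟩ :=
        planar hn K hK hreg hKi hIB m hm hpoly ξ₀ ξ₁ hli δ' hs _ rfl
      haveI := hμf
      obtain ⟨a, b, c, d, e, hc⟩ := AS.core _ hYo hYne hYb μ hμ m hm P Bad hBad hpos hint hfr δ' hδ'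
        htop
      refine ⟨a, b, -c, -d, -e, fun s => ?_⟩
      obtain ⟨h1, h2⟩ := hc s
      rw [himg s, hsSup, hsInf] at h1 h2
      constructor
      · show h (ξ₀ + s • ξ₁) - h (-(ξ₀ + s • ξ₁)) = _
        linarith
      · show h (ξ₀ + s • ξ₁) * h (-(ξ₀ + s • ξ₁)) = _
        linarith)
  obtain ⟨c, T, hT1, hT2⟩ := ball_position K hK hKi h hh L hL B hBs hB
  -- the normalized body
  obtain ⟨K', hK'⟩ : ∃ K' : Set (EuclideanSpace ℝ (Fin n)), K' = (fun x => T (x - c)) '' K :=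
    ⟨_, rfl⟩
  obtain ⟨hK'c, hK'reg, hK'i, hK'sm⟩ := smooth_image2 K hK hreg hsm T c K' hK'
  have hb : K' ⊆ closedBall 0 1 := by
    rw [hK']
    rintro _ ⟨x, hx, rfl⟩
    simpa using hT1 x hx
  have hsph : sphere 0 1 ⊆ K' := by
    intro y hy
    obtain ⟨x, hx, hxy⟩ := hT2 y (by simpa using hy)
    rw [hK']
    exact ⟨x, hx, hxy⟩
  obtain ⟨ε, hε, hsh⟩ := shell hn K' hK'c hb hsph (hloc K' hK'c hK'reg hK'sm)
  have hball := ball_of_shell hn K hK hreg hfr0 m hm hpoly T c K' hK' hK'i hb ε hε hsh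
  rw [hK'] at hball
  exact ⟨c, T, frontier_ellipsoid hn K c T hball⟩

end Pool.Agent.Y106.C2
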